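import Pool.Agent.H66.Mkv2

namespace Pool.Agent.Results.MP_bd9c87_an.Fails

open Pool.Agent.H66.Mkv

theorem result : ∀ σ : ℝ, 1 < σ → Irrational σ → ∀ p : ℕ, σ < p →
    ∀ C r : ℝ, 0 < C → 0 < r → ∃ P : MvPolynomial (Fin 2) ℝ,
      C * (P.totalDegree : ℝ) ^ r * supNorm (cusp σ p) P < gradNorm (cusp σ p) P :=
  fun _ h1 h2 _ h3 _ _ hC hr => final h1 h2 h3 hC hr

end Pool.Agent.Results.MP_bd9c87_an.Fails
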